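import Pool.Agent.X318.FranelSums

/-!
# `∑_{k<n} (-1)^{rk} (3k+2) f_k^{(r)}` is divisible by `2 n`

The sum is `2 ∑_y ∑_{k<n} (-1)^{rk} (2k-y+1) C(k,y)^r`, and each inner sum is divisible by `n`.
-/

set_option autoImplicit false

open Finset

namespace Pool.Agent.Results.MP_ede29a_nt.WeightedPowerSums

/-- The sum of the `r`-th powers of the binomial coefficients `C(n,k)`, `0 ≤ k ≤ n`. -/
def f (r n : ℕ) : ℕ := ∑ k ∈ range (n + 1), n.choose k ^ r

/-- The weighted alternating sum `S_r(n)`. -/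
def S (r n : ℕ) : ℤ := ∑ k ∈ range n, (-1 : ℤ) ^ (r * k) * (3 * (k : ℤ) + 2) * (f r k : ℤ)

/-- For all `r` and all `n ≥ 1` the number `2 n` divides `S_r(n)`. -/
theorem result (r n : ℕ) (_hn : 1 ≤ n) : (2 * (n : ℤ)) ∣ S r n := by
  rcases Nat.eq_zero_or_pos r with rfl | hr
  · have h : ∀ n : ℕ, S 0 n = (n : ℤ) * n * (n + 1) := by
      intro n
      induction n with
      | zero => simp [S]
      | succ n ih =>
        unfold S at ih ⊢
        rw [sum_range_succ, ih]
        simp only [f, zero_mul, pow_zero, one_mul, sum_const, card_range, smul_eq_mul, mul_one]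
        push_cast
        ring
    rw [h]
    obtain ⟨c, hc⟩ := Int.even_mul_succ_self (n : ℤ)
    exact ⟨c, by linear_combination (n : ℤ) * hc⟩
  · unfold S f
    rw [Pool.Agent.X318.LineSum.three_sum r n hr]
    exact mul_dvd_mul_left 2 (dvd_sum fun y _ => Pool.Agent.X318.LineSum.line_sum y r n hr)

end Pool.Agent.Results.MP_ede29a_nt.WeightedPowerSums
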